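import Pool.Agent.Helper89.OC.St3

/-! # Project OC (MP_2b6189_al), module TAN -/

set_option autoImplicit false

set_option linter.unusedSimpArgs false

namespace Pool.Agent.Helper62.OC

open Matrix ComplexConjugate Pool.Agent.Helper94.YF Pool.Agent.Helper94.YG Pool.Agent.Helper89.OS
  Pool.Agent.Helper89.OC

theorem eq_of_re {z : ℂ} {r : ℝ} (h1 : ‖z‖ ≤ r) (h2 : z.re = r) : z = r := by
  have h3 : z.re ^ 2 + z.im ^ 2 = ‖z‖ ^ 2 := by
    rw [← Complex.normSq_eq_norm_sq, Complex.normSq_apply]; ring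
  have h5 : ‖z‖ ^ 2 ≤ r ^ 2 := pow_le_pow_left₀ (norm_nonneg _) h1 2
  rw [h2] at h3
  have h6 : z.im ^ 2 ≤ 0 := by linarith
  have h4 : z.im = 0 := by
    have h7 : z.im ^ 2 = 0 := le_antisymm h6 (sq_nonneg _)
    exact (pow_eq_zero_iff two_ne_zero).1 h7
  apply Complex.ext
  · simp [h2]
  · simp [h4]

theorem all_eq {I : Type} (s : Finset I) (f : I → ℂ) (r : ℝ) (h : ∀ i ∈ s, ‖f i‖ ≤ r)
    (hs : ∑ i ∈ s, f i = (s.card : ℂ) * r) : ∀ i ∈ s, f i = r := by
  have h1 : ∀ i ∈ s, 0 ≤ r - (f i).re := fun i hi =>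
    sub_nonneg.2 ((Complex.re_le_norm _).trans (h i hi))
  have h2 : ∑ i ∈ s, (r - (f i).re) = 0 := by
    have h3 := congrArg Complex.re hs
    rw [Complex.re_sum] at h3
    rw [Finset.sum_sub_distrib, h3]
    simp
  intro i hi
  have h4 := (Finset.sum_eq_zero_iff_of_nonneg h1).1 h2 i hi
  exact eq_of_re (h i hi) (by linarith)

section
variable {I : Type} [Fintype I] [DecidableEq I] (Z : CentreData I) {p : ℕ} (b : ZMod Z.L)
    (X : PD I p 1)

theorem s2s2 {L : ℕ} (b : ZMod L) (hb : b * b = b) : (s2 (1 - b) * s2 b : SL L) = Sm := by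
  have hb' : (1 - b) * (1 - b) = 1 - b := by linear_combination hb
  apply Subtype.ext
  rw [Matrix.SpecialLinearGroup.coe_mul]
  ext i j
  fin_cases i <;> fin_cases j
  · simp [Matrix.mul_apply, Fin.sum_univ_two, s2_00 b hb, s2_01 b hb, s2_10 b, s2_11 b hb,
      s2_00 (1 - b) hb', s2_01 (1 - b) hb', s2_10 (1 - b), s2_11 (1 - b) hb', Sm]
    ring
  · simp [Matrix.mul_apply, Fin.sum_univ_two, s2_00 b hb, s2_01 b hb, s2_10 b, s2_11 b hb,
      s2_00 (1 - b) hb', s2_01 (1 - b) hb', s2_10 (1 - b), s2_11 (1 - b) hb', Sm]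
    linear_combination (-2 : ZMod L) * hb
  · simp [Matrix.mul_apply, Fin.sum_univ_two, s2_00 b hb, s2_01 b hb, s2_10 b, s2_11 b hb,
      s2_00 (1 - b) hb', s2_01 (1 - b) hb', s2_10 (1 - b), s2_11 (1 - b) hb', Sm]
    linear_combination (2 : ZMod L) * hb
  · simp [Matrix.mul_apply, Fin.sum_univ_two, s2_00 b hb, s2_01 b hb, s2_10 b, s2_11 b hb,
      s2_00 (1 - b) hb', s2_01 (1 - b) hb', s2_10 (1 - b), s2_11 (1 - b) hb', Sm]
    ring

variable {Z b X}

theorem dcol (lk : Lk Z b X) (k : I) :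
    (X.d k : ℂ) = (Z.n : ℂ) * (Z.rho (s2 (1 - b)) * Z.rho (s2 b)) k Z.o := by
  have hn : (Z.n : ℂ) ≠ 0 := by exact_mod_cast Z.n_pos.ne'
  rw [← map_mul, s2s2 b lk.idp.idem, Z.s_symm, Z.s_o, lk.d]
  field_simp

theorem zd (lk : Lk Z b X) :
    ∑ k, (X.z k : ℂ) * X.d k = (X.m : ℂ) ^ 2 * X.y X.o := by
  have h2 : (Z.rho (s2 (1 - b)))ᴴ * (Z.rho (s2 (1 - b)) * Z.rho (s2 b)) = Z.rho (s2 b) := by
    rw [← Matrix.mul_assoc, Z.unitary, Matrix.one_mul]
  have h3 := congrFun (congrFun h2 Z.o) Z.o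
  rw [Matrix.mul_apply] at h3
  have h4 : ∀ k, (X.z k : ℂ) * X.d k = (X.m : ℂ) * (Z.n : ℂ) *
      ((Z.rho (s2 (1 - b)))ᴴ Z.o k * (Z.rho (s2 (1 - b)) * Z.rho (s2 b)) k Z.o) := by
    intro k
    have h5 : (X.z k : ℂ) = (X.m : ℂ) * (Z.rho (s2 (1 - b)))ᴴ Z.o k := by
      have h6 := congrArg (starRingEnd ℂ) (lk.z k)
      rw [map_mul, Complex.conj_natCast, map_intCast] at h6
      rw [Matrix.conjTranspose_apply]
      exact h6
    rw [dcol lk k, h5]
    ring
  rw [Finset.sum_congr rfl fun k _ => h4 k, ← Finset.mul_sum, h3]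
  have h7 : (X.y X.o : ℂ) = (p : ℂ) * Z.rho (s2 b) Z.o Z.o := by
    rw [← X.s_o, lk.s, lk.o]
  rw [h7, lk.n_eq]
  push_cast
  ring

theorem zz2 (lk : Lk Z b X) : ∑ k, (X.z k : ℂ) * X.z k = (X.m : ℂ) ^ 2 := by
  have h3 := congrFun (congrFun (Z.unitary (s2 (1 - b))) Z.o) Z.o
  rw [Matrix.mul_apply, Matrix.one_apply_eq] at h3
  have h4 : ∀ k, (X.z k : ℂ) * X.z k = (X.m : ℂ) ^ 2 *
      ((Z.rho (s2 (1 - b)))ᴴ Z.o k * Z.rho (s2 (1 - b)) k Z.o) := by
    intro k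
    have h5 : (X.z k : ℂ) = (X.m : ℂ) * (Z.rho (s2 (1 - b)))ᴴ Z.o k := by
      have h6 := congrArg (starRingEnd ℂ) (lk.z k)
      rw [map_mul, Complex.conj_natCast, map_intCast] at h6
      rw [Matrix.conjTranspose_apply]
      exact h6
    calc (X.z k : ℂ) * X.z k = ((X.m : ℂ) * (Z.rho (s2 (1 - b)))ᴴ Z.o k) *
          ((X.m : ℂ) * Z.rho (s2 (1 - b)) k Z.o) := by rw [← h5, ← lk.z k]
      _ = _ := by ring
  rw [Finset.sum_congr rfl fun k _ => h4 k, ← Finset.mul_sum, h3, mul_one]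

theorem dd2 (lk : Lk Z b X) : ∑ k, (X.d k : ℂ) ^ 2 = ((p : ℂ) * X.m) ^ 2 := by
  have hn : (Z.n : ℂ) ≠ 0 := by exact_mod_cast Z.n_pos.ne'
  have h3 := congrFun (congrFun (Z.unitary Sm) Z.o) Z.o
  rw [Matrix.mul_apply, Matrix.one_apply_eq] at h3
  have h4 : ∀ k, (X.d k : ℂ) ^ 2 = (Z.n : ℂ) ^ 2 *
      ((Z.rho Sm)ᴴ Z.o k * Z.rho Sm k Z.o) := by
    intro k
    have h5 : (Z.rho Sm)ᴴ Z.o k = (Z.d k : ℂ) / Z.n := by
      rw [Matrix.conjTranspose_apply, Z.s_symm, Z.s_o]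
      simp
    rw [h5, Z.s_symm, Z.s_o, lk.d]
    field_simp
  rw [Finset.sum_congr rfl fun k _ => h4 k, ← Finset.mul_sum, h3, mul_one, lk.n_eq]
  push_cast
  ring

/-- the sum of the squares of the dimensions of the objects with `t = 1` -/
theorem dd1 (lk : Lk Z b X) : (∑ k, if X.t k = 1 then (X.d k : ℂ) ^ 2 else 0) =
    (p : ℂ) * (X.m : ℂ) ^ 2 + ((p : ℂ) - 1) * ((X.m : ℂ) ^ 2 * X.y X.o) := by
  have h := fun j => Pool.Agent.Helper8.OS.hHEC I p X (fun i => (X.z i : ℂ))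
    (fun c i => by rw [X.pi_z]) (fun i hi => X.z_t i (by exact_mod_cast hi)) j
  simp only [X.sz] at h
  have h1 : ∑ j, (X.z j : ℂ) * (∑ k, if X.t k = 1 then X.s j k * (X.d k : ℂ) else 0) =
      ∑ k, if X.t k = 1 then (X.d k : ℂ) ^ 2 else 0 := by
    simp only [Finset.mul_sum]
    rw [Finset.sum_comm]
    refine Finset.sum_congr rfl fun k _ => ?_
    by_cases hk : X.t k = 1
    · simp only [hk, if_true]
      calc ∑ j, (X.z j : ℂ) * (X.s j k * (X.d k : ℂ)) = (∑ j, X.s k j * (X.z j : ℂ)) * X.d k := by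
            rw [Finset.sum_mul]
            refine Finset.sum_congr rfl fun j _ => ?_
            rw [X.s_symm j k]
            ring
        _ = _ := by rw [X.sz]; ring
    · simp only [hk, if_false, mul_zero, Finset.sum_const_zero]
  rw [← h1, Finset.sum_congr rfl fun j _ => congrArg (fun x => (X.z j : ℂ) * x) (h j), ← zd lk,
    ← zz2 lk, Finset.mul_sum, Finset.mul_sum, ← Finset.sum_add_distrib]
  refine Finset.sum_congr rfl fun j _ => ?_
  by_cases hj : X.t j = 1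
  · simp only [hj, if_true]
    ring
  · have hz : X.z j = 0 := by
      by_contra hz
      exact hj (X.z_t j hz)
    simp [hz]

/-- the sum of the squares of the dimensions of the objects with `t ≠ 1` -/
theorem dd0 (lk : Lk Z b X) : (∑ k, if X.t k = 1 then 0 else (X.d k : ℂ) ^ 2) =
    (X.m : ℂ) ^ 2 * ((p : ℂ) - 1) * (gX X : ℂ) := by
  have h1 := dd1 lk
  have h2 := dd2 lk
  have h3 : (∑ k, if X.t k = 1 then (X.d k : ℂ) ^ 2 else 0) +
      (∑ k, if X.t k = 1 then 0 else (X.d k : ℂ) ^ 2) = ∑ k, (X.d k : ℂ) ^ 2 := by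
    rw [← Finset.sum_add_distrib]
    refine Finset.sum_congr rfl fun k _ => ?_
    by_cases hk : X.t k = 1
    · simp [hk]
    · simp [hk]
  rw [h1, h2] at h3
  have h4 : (gX X : ℂ) = (p : ℂ) - X.y X.o := by
    rw [gX]; push_cast; ring
  rw [h4]
  linear_combination h3

/-- Step (1). -/
theorem step1 (hLKD : StLKD) (hGLA : StGLA) (lk : Lk Z b X) (i : I) (hi : i ≠ X.o)
    (hD : ∀ j, X.t j ≠ 1 → Cchi Z j i = Z.d i) :
    X.t i = 1 ∧ X.y i = -(gX X * (X.d i : ℤ)) := by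
  have h := hLKD hGLA I Z p b X lk i hi
  have h1 : (∑ j, if X.t j = 1 then 0 else (X.d j : ℂ) ^ 2 * X.chi j i) =
      (X.d i : ℂ) * ((X.m : ℂ) ^ 2 * ((p : ℂ) - 1) * (gX X : ℂ)) := by
    rw [← dd0 lk, Finset.mul_sum]
    refine Finset.sum_congr rfl fun j _ => ?_
    by_cases hj : X.t j = 1
    · simp [hj]
    · rw [if_neg hj, if_neg hj, lk.chi, hD j hj, lk.d]
      ring
  rw [h1] at h
  have hm : (X.m : ℂ) ≠ 0 := by
    have h2 := X.m_odd
    have h3 : X.m ≠ 0 := by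
      intro h0
      rw [h0] at h2
      exact absurd h2 (by decide)
    exact_mod_cast h3
  have hm2 : (X.m : ℂ) ^ 2 ≠ 0 := pow_ne_zero 2 hm
  have h2 : (X.d i : ℂ) * ((p : ℂ) - 1) * (gX X : ℂ) =
      -((X.y i : ℂ) * (if X.t i = 1 then (p : ℂ) - 1 else -1)) := by
    apply mul_left_cancel₀ hm2
    linear_combination h
  have hp3 : (3 : ℤ) ≤ p := by
    have h3 := X.prime.two_le
    have h4 : p ≠ 2 := by
      intro h5
      have h6 := X.p_odd
      rw [h5] at h6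
      exact absurd h6 (by decide)
    omega
  obtain ⟨m1, -, -, -, m5, -, -⟩ := Pool.Agent.Helper39.OS.hMZZ I p X
  have hg : 2 ≤ gX X := m5
  have hd : (1 : ℤ) ≤ X.d i := by exact_mod_cast X.d_pos i
  by_cases ht : X.t i = 1
  · refine ⟨ht, ?_⟩
    rw [if_pos ht] at h2
    have h3 : (X.d i : ℤ) * ((p : ℤ) - 1) * gX X = -(X.y i * ((p : ℤ) - 1)) := by
      exact_mod_cast h2
    have h4 : ((p : ℤ) - 1) ≠ 0 := by omega
    apply mul_left_cancel₀ h4
    linear_combination h3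
  · exfalso
    rw [if_neg ht] at h2
    have h3 : (X.d i : ℤ) * ((p : ℤ) - 1) * gX X = -(X.y i * (-1)) := by
      exact_mod_cast h2
    have h4 := m1 (X.t i) ht (by simpa using X.t_pow i)
    have h5 : X.y i ^ 2 ≤ gX X := by
      rw [gX, ← h4]
      refine le_trans ?_ (Finset.single_le_sum (f := fun j => if X.t j = X.t i then X.y j ^ 2 else 0)
        (fun j _ => ?_) (Finset.mem_univ i))
      · simp
      · split_ifs
        · exact sq_nonneg _
        · exact le_refl _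
    have h6 : X.y i = (X.d i : ℤ) * ((p : ℤ) - 1) * gX X := by linarith
    have h7 : 2 * gX X ≤ X.y i := by
      rw [h6]
      have h8 : (2 : ℤ) ≤ (X.d i : ℤ) * ((p : ℤ) - 1) := by nlinarith
      nlinarith
    nlinarith

end

theorem hTAN : StTAN := by
  classical
  intro hLKD hGLA hGLB hGLC hTS2 hORB I _ _ Z p _ b X Q lk blk k hk hyk
  have A := hGLA I Z
  have B := hGLB I Z
  have C := hGLC hGLA hGLB I Z
  have ob := hORB I p X
  obtain ⟨-, ts⟩ := hTS2 hORB I p X Q blk k hk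
  have hko : k ≠ X.o := by
    have h := hk
    rw [Ks, Finset.mem_filter] at h
    exact h.2.2.2
  obtain ⟨m1, -, -, -, m5, -, -⟩ := Pool.Agent.Helper39.OS.hMZZ I p X
  have hg : 2 ≤ gX X := m5
  have hg0 : (gX X : ℂ) ≠ 0 := by
    have h : gX X ≠ 0 := by omega
    exact_mod_cast h
  have hdst : ∀ x, Z.d (Z.st x) = Z.d x := by
    intro x
    have h := X.d_st x
    rw [lk.d, lk.st] at h
    exact h
  have hnorm : ∀ i j, ‖Cchi Z i j‖ ≤ Z.d j := fun i j => A.bound (RingEquiv.refl ℂ) i j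
  have hdpos : ∀ x, (Z.d x : ℂ) ≠ 0 := fun x => by exact_mod_cast (Z.d_pos x).ne'
  -- `k` is in the set
  have hDk : ∀ j, X.t j ≠ 1 → Cchi Z j k = Z.d k := by
    intro j hj
    have h := ts j hj
    rw [hyk, lk.chi, lk.d] at h
    have h1 : ∑ i ∈ Orb X k, Cchi Z j i = ((Orb X k).card : ℂ) * ((Z.d k : ℝ) : ℂ) := by
      apply mul_left_cancel₀ hg0
      rw [h]
      push_cast
      ring
    have h2 := all_eq (Orb X k) (fun i => Cchi Z j i) (Z.d k : ℝ) (fun i hi => by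
      have h3 := ob.d k i hi
      rw [lk.d] at h3
      rw [← h3]
      exact hnorm j i) h1 k (ob.self k)
    simpa using h2
  have hex : ∃ l, X.t l ≠ 1 := by
    obtain ⟨l, -, hl⟩ := X.ex
    refine ⟨l, ?_⟩
    simpa using hl
  obtain ⟨l, hl⟩ := hex
  have key : ∀ i, (∀ j, X.t j ≠ 1 → Cchi Z j i = Z.d i) → Z.th i = 1 := by
    intro i hi
    by_cases hio : i = X.o
    · rw [hio, lk.o]
      exact Z.th_o
    · obtain ⟨h1, h2⟩ := step1 hLKD hGLA lk i hio hi
      have h3 : X.y i ≠ 0 := by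
        rw [h2]
        have h4 : (1 : ℤ) ≤ X.d i := by exact_mod_cast X.d_pos i
        have h5 : 0 < gX X * (X.d i : ℤ) := by positivity
        omega
      have h4 := X.th_of i h3 h1
      rw [lk.th] at h4
      exact h4
  refine ⟨fun i => ∀ j, X.t j ≠ 1 → Cchi Z j i = Z.d i, ?_, ?_, ?_, ?_, ?_, ?_⟩
  · intro j _
    rw [A.chi_o, Z.d_o]
    simp
  · exact ⟨k, hDk, fun h => hko (by rw [lk.o]; exact h)⟩
  · intro x hx j hj
    rw [A.chi_st, hx j hj, hdst]
    simp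
  · intro x y z hx hy hN j hj
    exact A.clos j x y z (hx j hj) (hy j hj) hN
  · exact key
  · intro k' i hk' hi
    -- for `v` with `t v ≠ 1`
    have hv : ∀ v, X.t v ≠ 1 → Cchi Z k' v = Z.d v := by
      intro v hv
      have h1 := A.Sf_chi v k'
      rw [hk' v hv, A.Sf_symm, A.Sf_chi] at h1
      apply mul_left_cancel₀ (hdpos k')
      rw [h1]
      ring
    have h1 : Sf Z i l = (Z.d i : ℂ) * Z.d l := by
      rw [A.Sf_symm, A.Sf_chi, hi l hl]
      ring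
    have h2 : ∀ v, Z.N i l v ≠ 0 → Cchi Z k' v = Z.d v := by
      intro v hN
      apply hv
      have h3 := C.bal i l v h1 hN
      rw [key i hi, one_mul] at h3
      have h4 : X.t v = X.t l := by
        rw [lk.t, CentreRep.tw, CentreRep.tw, h3]
      rw [h4]
      exact hl
    have h3 := A.chi_mul k' i l
    have h4 : ∑ v, (Z.N i l v : ℂ) * Cchi Z k' v = (Z.d i : ℂ) * Z.d l := by
      have h5 := B.dim i l
      have h6 : (Z.d i : ℂ) * Z.d l = ∑ v, (Z.N i l v : ℂ) * Z.d v := by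
        exact_mod_cast h5
      rw [h6]
      refine Finset.sum_congr rfl fun v _ => ?_
      by_cases hN : Z.N i l v = 0
      · simp [hN]
      · rw [h2 v hN]
    rw [h4, hv l hl] at h3
    have h5 : Cchi Z k' i = Z.d i := mul_right_cancel₀ (hdpos l) h3
    rw [A.Sf_chi, h5]

end Pool.Agent.Helper62.OC
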